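import Pool.Agent.FB.HopfC.Def
import Pool.Agent.FB.GeoA.Lat

/-! MP_15d50e_gt, module HOPF, part H2: `z² q(z)` is real on the hole boundary. -/

set_option autoImplicit false

open Complex Set
open scoped ComplexConjugate Real

namespace FB

namespace HR

/-- The angular derivative of `ψ` at `z`. -/
noncomputable def Th (ω : ℂ → ℂ) (z : ℂ) : ℂ := I * (z * ω z) + I * conj (z * ω (-z))

theorem alg (A C p : ℂ) (r : ℝ) (h : A - conj C = -((r : ℝ) : ℂ) * p) :
    (-(A * C)).im = r / 2 * (p * conj (I * A + I * conj C)).re := by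
  have h1 := congrArg Complex.re h
  have h2 := congrArg Complex.im h
  simp only [sub_re, sub_im, conj_re, conj_im, neg_mul, neg_re, neg_im, mul_re, mul_im, ofReal_re,
    ofReal_im, zero_mul, sub_zero, add_zero] at h1 h2
  simp only [neg_im, mul_im, mul_re, map_add, map_mul, conj_I, add_re, add_im, conj_re, conj_im,
    neg_re, neg_mul, I_re, I_im, conj_conj, zero_mul, one_mul, zero_sub, zero_add, neg_neg]
  linear_combination (1 / 2) * (A.im + -C.im) * h1 - (1 / 2) * (C.re + A.re) * h2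

variable {κ : ℂ} {t c : ℝ} {ψ ω : ℂ → ℂ} {ρ : ℂ → ℝ}

/-- The imaginary part of one product. -/
theorem one (hfree : ∀ z : ℂ, ‖z‖ = t → z * ω z - conj (z * ω (-z)) = -((ρ z : ℝ) : ℂ) * ψ z)
    {z : ℂ} (hz : ‖z‖ = t) :
    (-(z ^ 2 * (ω z * ω (-z)))).im = ρ z / 2 * (ψ z * conj (Th ω z)).re := by
  have h1 := alg (z * ω z) (z * ω (-z)) (ψ z) (ρ z) (hfree z hz)
  have h2 : z ^ 2 * (ω z * ω (-z)) = z * ω z * (z * ω (-z)) := by ring
  rw [h2]
  exact h1

theorem circle_US (ht : 0 < t) (ht8 : t < 1 / 8) {z : ℂ} (hz : ‖z‖ = t) : z ∈ US (t / 2) :=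
  mem_US_of_norm (by rw [hz]; linarith) (by rw [hz]; linarith)

/-- Derivative of `‖ψ (g s)‖ ^ 2` for a curve `g`. -/
theorem der (H : IsBlochHarm κ (t / 2) ψ ω) {g : ℝ → ℂ} {a : ℝ} {g' : ℂ}
    (hg : HasDerivAt g g' a) (hU : g a ∈ US (t / 2)) (e : ℝ) (he : g' = (e : ℂ) * (I * g a)) :
    HasDerivAt (fun s => ‖ψ (g s)‖ ^ 2) (2 * (e * (ψ (g a) * conj (Th ω (g a))).re)) a := by
  have h1 := (H.deriv (g a) hU).comp_hasDerivAt a hg
  have h2 := h1.norm_sq
  refine h2.congr_deriv ?_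
  have h3 : dpair (ω (g a)) (-(conj (ω (-(g a))))) g' = (e : ℂ) * Th ω (g a) := by
    rw [dpair_apply, he, Th]
    simp only [map_mul, conj_ofReal, conj_I]
    ring
  rw [h3, real_inner_eq_re_inner ℂ]
  congr 1
  simp only [RCLike.inner_apply, Function.comp]
  rw [← re_ofReal_mul]
  simp only [mul_re, mul_im, conj_re, conj_im, ofReal_re, ofReal_im]
  simp
  ring

/-- The sum over the symmetries. -/
theorem sum_zero (H : IsBlochHarm κ (t / 2) ψ ω) (ht : 0 < t) (ht8 : t < 1 / 8) (hc : 0 < c)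
    (hs : ∀ z : ℂ, ‖z‖ = t →
      c ^ 2 * (‖ψ z‖ ^ 2 + ‖ψ (I * z)‖ ^ 2 + ‖ψ (conj z)‖ ^ 2 + ‖ψ (I * conj z)‖ ^ 2) = 1)
    {z : ℂ} (hz : ‖z‖ = t) :
    (ψ z * conj (Th ω z)).re + (ψ (I * z) * conj (Th ω (I * z))).re
      - (ψ (conj z) * conj (Th ω (conj z))).re
      - (ψ (I * conj z) * conj (Th ω (I * conj z))).re = 0 := by
  have hn : ∀ s : ℝ, ‖z * cexp (s * I)‖ = t := fun s => by
    rw [norm_mul, norm_exp_ofReal_mul_I, mul_one, hz]
  have g1 : HasDerivAt (fun s : ℝ => z * cexp (s * I)) (I * z) 0 := by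
    have h1 : HasDerivAt (fun s : ℝ => (s : ℂ) * I) (1 * I) 0 :=
      (HasDerivAt.ofReal_comp (hasDerivAt_id (0 : ℝ))).mul_const I
    have h2 := (h1.cexp).const_mul z
    refine h2.congr_deriv ?_
    simp
    ring
  have g3 : HasDerivAt (fun s : ℝ => conj (z * cexp (s * I))) (conj (I * z)) 0 := by
    have h1 := (conjCLE : ℂ →L[ℝ] ℂ).hasFDerivAt.comp_hasDerivAt (0 : ℝ) g1
    exact h1
  have g2 := g1.const_mul I
  have g4 := g3.const_mul I
  have e0 : z * cexp (((0 : ℝ) : ℂ) * I) = z := by simp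
  have n1 : ‖z‖ = t := hz
  have n2 : ‖I * z‖ = t := by simpa using hz
  have n3 : ‖conj z‖ = t := by simpa using hz
  have n4 : ‖I * conj z‖ = t := by simpa using hz
  have d1 := der H (g := fun s : ℝ => z * cexp (s * I)) g1
    (by simp only [e0]; exact circle_US ht ht8 n1) 1 (by simp only [e0]; push_cast; ring)
  have d2 := der H (g := fun s : ℝ => I * (z * cexp (s * I))) g2
    (by simp only [e0]; exact circle_US ht ht8 n2) 1 (by simp only [e0]; push_cast; ring)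
  have d3 := der H (g := fun s : ℝ => conj (z * cexp (s * I))) g3
    (by simp only [e0]; exact circle_US ht ht8 n3) (-1)
    (by simp only [e0, map_mul, conj_I]; push_cast; ring)
  have d4 := der H (g := fun s : ℝ => I * conj (z * cexp (s * I))) g4
    (by simp only [e0]; exact circle_US ht ht8 n4) (-1)
    (by simp only [e0, map_mul, conj_I]; push_cast; ring)
  simp only [e0] at d1 d2 d3 d4
  have d5 := ((d1.add d2).add d3).add d4
  have hF : (((fun s : ℝ => ‖ψ (z * cexp (s * I))‖ ^ 2) + fun s : ℝ =>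
      ‖ψ (I * (z * cexp (s * I)))‖ ^ 2) + fun s : ℝ => ‖ψ (conj (z * cexp (s * I)))‖ ^ 2) +
      (fun s : ℝ => ‖ψ (I * conj (z * cexp (s * I)))‖ ^ 2) = fun _ : ℝ => 1 / c ^ 2 := by
    funext s
    have h1 := hs _ (hn s)
    simp only [Pi.add_apply]
    rw [eq_div_iff (by positivity), mul_comm]
    exact h1
  rw [hF] at d5
  have d6 := d5.unique (hasDerivAt_const (0 : ℝ) (1 / c ^ 2))
  linarith

end HR

/-- H2: `z² q(z)` is real on the hole boundary. -/
theorem qH_real {κ : ℂ} {t c : ℝ} {ψ ω : ℂ → ℂ} {ρ : ℂ → ℝ} (H : IsBlochHarm κ (t / 2) ψ ω)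
    (ht : 0 < t) (ht8 : t < 1 / 8) (hc : 0 < c) (hB : IsBdry t c ψ ω ρ) {z : ℂ} (hz : ‖z‖ = t) :
    (z ^ 2 * qH ω z).im = 0 := by
  have n2 : ‖I * z‖ = t := by simpa using hz
  have n3 : ‖conj z‖ = t := by simpa using hz
  have n4 : ‖I * conj z‖ = t := by simpa using hz
  have o1 := HR.one hB.free hz
  have o2 := HR.one hB.free n2
  have o3 := HR.one hB.free n3
  have o4 := HR.one hB.free n4
  have r2 := hB.ρrot z hz
  have r3 := hB.ρconj z hz
  have r4 := hB.ρrot (conj z) n3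
  rw [r3] at r4
  rw [r2] at o2
  rw [r3] at o3
  rw [r4] at o4
  have hsum := HR.sum_zero H ht ht8 hc hB.sphere hz
  have key : z ^ 2 * qH ω z = -(z ^ 2 * (ω z * ω (-z))) +
      -((I * z) ^ 2 * (ω (I * z) * ω (-(I * z)))) +
      conj (-((conj z) ^ 2 * (ω (conj z) * ω (-(conj z))))) +
      conj (-((I * conj z) ^ 2 * (ω (I * conj z) * ω (-(I * conj z))))) := by
    unfold qH
    simp only [map_neg, map_mul, map_pow, conj_I, conj_conj]
    linear_combination (z ^ 2 * (ω (I * z) * ω (-(I * z))) +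
      z ^ 2 * (conj (ω (I * conj z)) * conj (ω (-(I * conj z))))) * I_sq
  rw [key, add_im, add_im, add_im, conj_im, conj_im, o1, o2, o3, o4]
  linear_combination (ρ z / 2) * hsum

end FB
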